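import Mathlib
import Pool.Agent.Y52.SJ.Stm3

/-!
# Project SJ: the smooth potential by mollification
-/

set_option autoImplicit false

open MeasureTheory Set

open scoped Convolution ENNReal Pointwise

namespace Pool.Agent.Y171.SJ

open Pool.Agent.Y52.SJ

/-- the open orthant -/
def O (m : ℕ) : Set (Fin m → ℝ) := {I | ∀ i, 0 < I i}

lemma isOpen_O (m : ℕ) : IsOpen (O m) := by
  have : O m = Set.pi Set.univ (fun _ => Set.Ioi (0 : ℝ)) := by
    ext
    simp [O]
  rw [this]
  exact isOpen_set_pi Set.finite_univ (fun _ _ => isOpen_Ioi)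

lemma exists_density (m : ℕ) (δ : ℝ) (hδ : 0 < δ) :
    ∃ (ρ : (Fin m → ℝ) → ℝ) (S : Set (Fin m → ℝ)), ContDiff ℝ ((⊤ : ℕ∞) : WithTop ℕ∞) ρ ∧
      (∀ h, 0 ≤ ρ h) ∧ HasCompactSupport ρ ∧ IsCompact S ∧ (∀ h, ρ h ≠ 0 → h ∈ S) ∧
      (∀ h ∈ S, ∀ i, 0 < h i ∧ h i ≤ δ) ∧ ∫ h, ρ h = 1 := by
  let f : ContDiffBump (fun _ : Fin m => δ / 2) := ⟨δ / 8, δ / 4, by linarith, by linarith⟩
  refine ⟨f.normed volume, Metric.closedBall (fun _ : Fin m => δ / 2) (δ / 4), f.contDiff_normed,
    fun h => f.nonneg_normed h, f.hasCompactSupport_normed, isCompact_closedBall _ _, ?_, ?_,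
    f.integral_normed⟩
  · intro h hh
    have h1 : h ∈ Function.support (f.normed volume) := hh
    rw [f.support_normed_eq] at h1
    exact Metric.ball_subset_closedBall h1
  · intro h hh i
    have h1 := (dist_pi_le_iff (by linarith)).1 (Metric.mem_closedBall.1 hh) i
    rw [Real.dist_eq, abs_le] at h1
    constructor <;> linarith [h1.1, h1.2]

/-- smoothness of the mollified function -/
lemma smooth_moll {m : ℕ} {U : (Fin m → ℝ) → ℝ} (hU : ContinuousOn U (O m))
    {ρ : (Fin m → ℝ) → ℝ} {S : Set (Fin m → ℝ)} (hρ : ContDiff ℝ ((⊤ : ℕ∞) : WithTop ℕ∞) ρ)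
    (hc : HasCompactSupport ρ) (hS : IsCompact S) (hρS : ∀ h, ρ h ≠ 0 → h ∈ S)
    (hpos : ∀ h ∈ S, ∀ i, 0 < h i) :
    ContDiffOn ℝ ((⊤ : ℕ∞) : WithTop ℕ∞) (fun I => ∫ h, ρ h * U (I + h)) (O m) := by
  intro I₀ hI₀
  obtain ⟨r, hr, hrO⟩ := Metric.nhds_basis_closedBall.mem_iff.1 ((isOpen_O m).mem_nhds hI₀)
  let Kc : Set (Fin m → ℝ) := Metric.closedBall I₀ r + S
  have hKc : IsCompact Kc := (isCompact_closedBall _ _).add hS
  have hKO : Kc ⊆ O m := by
    rintro _ ⟨x, hx, h, hh, rfl⟩ i
    have h1 := hrO hx i
    have h2 := hpos h hh i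
    simp only [Pi.add_apply]
    linarith
  let f : (Fin m → ℝ) → ℝ := Kc.indicator U
  have hf : LocallyIntegrable f volume := by
    have h1 : IntegrableOn U Kc volume := (hU.mono hKO).integrableOn_compact hKc
    exact ((integrable_indicator_iff hKc.measurableSet).2 h1).locallyIntegrable
  let g : (Fin m → ℝ) → ℝ := fun x => ρ (-x)
  have hg : ContDiff ℝ ((⊤ : ℕ∞) : WithTop ℕ∞) g := hρ.comp contDiff_neg
  have hgc : HasCompactSupport g := hc.comp_homeomorph (Homeomorph.neg _)
  have hconv := hgc.contDiff_convolution_right (ContinuousLinearMap.lsmul ℝ ℝ) hf hg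
  have heq : ∀ x ∈ Metric.closedBall I₀ r, (∫ h, ρ h * U (x + h)) =
      (f ⋆[ContinuousLinearMap.lsmul ℝ ℝ, volume] g) x := by
    intro x hx
    rw [convolution_def, ← integral_add_left_eq_self
      (fun t => (ContinuousLinearMap.lsmul ℝ ℝ) (f t) (g (x - t))) x]
    refine integral_congr_ae (Filter.Eventually.of_forall fun h => ?_)
    simp only [ContinuousLinearMap.lsmul_apply, smul_eq_mul, g]
    rw [show -(x - (x + h)) = h by abel]
    by_cases h0 : ρ h = 0
    · rw [h0, zero_mul, mul_zero]
    · have h1 : x + h ∈ Kc := ⟨x, hx, h, hρS h h0, rfl⟩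
      rw [show f (x + h) = U (x + h) from Set.indicator_of_mem h1 U, mul_comm]
  refine ContDiffAt.contDiffWithinAt ?_
  refine hconv.contDiffAt.congr_of_eventuallyEq ?_
  filter_upwards [Metric.closedBall_mem_nhds I₀ hr] with x hx
  exact heq x hx

theorem main : Pool.Agent.Y52.SJ.S_MOL := by
  intro hLOZ m T hT ε hε
  obtain ⟨X, hXc, hX⟩ := hLOZ m T hT
  let δ : ℝ := ε / (m + 1)
  have hm : (0 : ℝ) < m + 1 := by positivity
  have hδ : 0 < δ := div_pos hε hm
  obtain ⟨ρ, S, hρs, hρ0, hρc, hS, hρS, hSδ, hρ1⟩ := exists_density m δ hδ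
  -- the functions `w` and `U`
  let w : (Fin m → ℝ) → Fin m → ℝ := fun I i => Real.log (X I i)
  let U : (Fin m → ℝ) → ℝ := fun I => ∑ i, I i * w I i
  have hwc : ∀ i, ContinuousOn (fun I => w I i) (O m) := by
    intro i
    have h1 : ContinuousOn (fun I => X I i) (O m) := (continuous_apply i).comp_continuousOn hXc
    exact h1.log fun I hI => ((hX I hI).2.1 i).ne'
  have hUc : ContinuousOn U (O m) :=
    continuousOn_finsetSum _ fun i _ => (continuous_apply i).continuousOn.mul (hwc i)
  -- the probability measure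
  let P : Measure (Fin m → ℝ) := volume.withDensity fun h => ENNReal.ofReal (ρ h)
  have hρm : Measurable fun h => ENNReal.ofReal (ρ h) :=
    ENNReal.measurable_ofReal.comp hρs.continuous.measurable
  have hρi : Integrable ρ volume := hρs.continuous.integrable_of_hasCompactSupport hρc
  have hP1 : IsProbabilityMeasure P := by
    refine ⟨?_⟩
    rw [withDensity_apply _ MeasurableSet.univ, Measure.restrict_univ,
      ← ofReal_integral_eq_lintegral_ofReal hρi (Filter.Eventually.of_forall hρ0), hρ1,
      ENNReal.ofReal_one]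
  have hPS : ∀ᵐ h ∂P, h ∈ S := by
    rw [ae_withDensity_iff hρm]
    refine Filter.Eventually.of_forall fun h hh => hρS h fun h0 => hh ?_
    rw [h0, ENNReal.ofReal_zero]
  have hPint : ∀ f : (Fin m → ℝ) → ℝ, ∫ h, f h ∂P = ∫ h, ρ h * f h := by
    intro f
    rw [integral_withDensity_eq_integral_toReal_smul hρm
      (Filter.Eventually.of_forall fun _ => ENNReal.ofReal_lt_top)]
    refine integral_congr_ae (Filter.Eventually.of_forall fun h => ?_)
    simp only [ENNReal.toReal_ofReal (hρ0 h), smul_eq_mul]
  have hIS : ∀ I ∈ O m, ∀ h ∈ S, I + h ∈ O m := fun I hI h hh i =>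
    add_pos (hI i) (hSδ h hh i).1
  have hint : ∀ f : (Fin m → ℝ) → ℝ, ContinuousOn f S → Integrable f P := by
    intro f hf
    have h1 : IntegrableOn f S P := hf.integrableOn_compact hS
    rwa [IntegrableOn, Measure.restrict_eq_self_of_ae_mem hPS] at h1
  have hcomp : ∀ (f : (Fin m → ℝ) → ℝ), ContinuousOn f (O m) → ∀ I ∈ O m,
      Integrable (fun h => f (I + h)) P := by
    intro f hf I hI
    refine hint _ ?_
    exact hf.comp (continuous_const.add continuous_id).continuousOn fun h hh => hIS I hI h hh
  -- Danskin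
  have hsub : ∀ I ∈ O m, ∀ J ∈ O m, ∑ i, (J i - I i) * w I i ≤ U J - U I := by
    intro I hI J hJ
    have h1 := (hX J hJ).2.2.1 (X I) (hX I hI).1 (hX I hI).2.1
    have h2 : ∑ i, (J i - I i) * w I i = ∑ i, J i * w I i - U I := by
      rw [← Finset.sum_sub_distrib]
      exact Finset.sum_congr rfl fun i _ => by ring
    rw [h2]
    exact sub_le_sub_right h1 _
  let V : (Fin m → ℝ) → ℝ := fun I => ∫ h, ρ h * U (I + h)
  have hVP : ∀ I, V I = ∫ h, U (I + h) ∂P := fun I => (hPint fun h => U (I + h)).symm
  have hVs : ContDiffOn ℝ ((⊤ : ℕ∞) : WithTop ℕ∞) V (O m) :=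
    smooth_moll hUc hρs hρc hS hρS fun h hh i => (hSδ h hh i).1
  let W : (Fin m → ℝ) → Fin m → ℝ := fun I i => ∫ h, w (I + h) i ∂P
  have hVsub : ∀ I ∈ O m, ∀ J ∈ O m, ∑ i, (J i - I i) * W I i ≤ V J - V I := by
    intro I hI J hJ
    rw [hVP, hVP, ← integral_sub (hcomp U hUc J hJ) (hcomp U hUc I hI)]
    have h1 : ∑ i, (J i - I i) * W I i = ∫ h, ∑ i, (J i - I i) * w (I + h) i ∂P := by
      rw [integral_finsetSum _ fun i _ => (hcomp _ (hwc i) I hI).const_mul _]
      exact Finset.sum_congr rfl fun i _ => (integral_const_mul _ _).symm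
    rw [h1]
    refine integral_mono_ae ?_ ?_ ?_
    · exact integrable_finsetSum _ fun i _ => (hcomp _ (hwc i) I hI).const_mul _
    · exact (hcomp U hUc J hJ).sub (hcomp U hUc I hI)
    · filter_upwards [hPS] with h hh
      have h2 := hsub (I + h) (hIS I hI h hh) (J + h) (hIS J hJ h hh)
      simpa only [Pi.add_apply, add_sub_add_right_eq_sub] using h2
  -- the derivative
  have hfd : ∀ I ∈ O m, ∀ i, fderiv ℝ V I (Pi.single i 1) = W I i := by
    intro I hI i
    let L : (Fin m → ℝ) →L[ℝ] ℝ := ∑ i, W I i • ContinuousLinearMap.proj i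
    have hL : ∀ v, L v = ∑ i, v i * W I i := by
      intro v
      simp only [L, sum_apply, smul_apply, ContinuousLinearMap.proj_apply, smul_eq_mul]
      exact Finset.sum_congr rfl fun i _ => mul_comm _ _
    have hVd : DifferentiableAt ℝ V I :=
      (hVs.contDiffAt ((isOpen_O m).mem_nhds hI)).differentiableAt (by simp)
    have hmin : IsLocalMin (fun J => V J - L J) I := by
      filter_upwards [(isOpen_O m).mem_nhds hI] with J hJ
      have h1 := hVsub I hI J hJ
      have h2 : ∑ i, (J i - I i) * W I i = L J - L I := by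
        rw [← map_sub, hL]
        rfl
      rw [h2] at h1
      linarith
    have h0 := hmin.fderiv_eq_zero
    rw [fderiv_fun_sub hVd L.differentiableAt, L.fderiv, sub_eq_zero] at h0
    rw [h0, hL]
    rw [Finset.sum_eq_single i]
    · simp
    · intro j _ hj
      rw [Pi.single_eq_of_ne hj, zero_mul]
    · intro h
      exact absurd (Finset.mem_univ _) h
  refine ⟨V, hVs, fun I hI => ?_⟩
  have hI' : I ∈ O m := hI
  constructor
  · -- membership
    have h1 : (fun i => Real.exp (fderiv ℝ V I (Pi.single i 1))) =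
        fun i => Real.exp (W I i) := by
      funext i
      rw [hfd I hI' i]
    rw [h1]
    let G : Set (Fin m → ℝ) := {v | (fun i => Real.exp (v i)) ∈ T}
    have hG : Convex ℝ G := by
      intro v hv v' hv' a b ha hb hab
      refine hT.solid _ (hT.conv hv hv' ha hb hab) _ fun i => ?_
      have h2 := convexOn_exp.2 (Set.mem_univ (v i)) (Set.mem_univ (v' i)) ha hb hab
      simp only [Pi.add_apply, Pi.smul_apply, smul_eq_mul] at h2 ⊢
      rw [abs_of_pos (Real.exp_pos _)]
      exact h2.trans (le_abs_self _)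
    have hGc : IsClosed G := by
      refine hT.cpt.isClosed.preimage ?_
      exact continuous_pi fun i => Real.continuous_exp.comp (continuous_apply i)
    have hwi : ∀ i, Integrable (fun h => w (I + h) i) P := fun i => hcomp _ (hwc i) I hI'
    have h3 := hG.integral_mem hGc (μ := P) (f := fun h => w (I + h)) (by
      filter_upwards [hPS] with h hh
      have h4 := hX (I + h) (hIS I hI' h hh)
      change (fun i => Real.exp (Real.log (X (I + h) i))) ∈ T
      have h5 : (fun i => Real.exp (Real.log (X (I + h) i))) = X (I + h) := by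
        funext i
        exact Real.exp_log (h4.2.1 i)
      rw [h5]
      exact h4.1) (Integrable.of_eval hwi)
    have h6 : (∫ h, w (I + h) ∂P) = W I := by
      funext i
      exact eval_integral hwi i
    rw [h6] at h3
    exact h3
  · -- the bound
    intro t ht
    have habs : (fun i => |t i|) ∈ T := hT.solid t ht _ fun i => by rw [abs_abs]
    have hXi : ∀ i, ContinuousOn (fun J => (X J i)⁻¹) (O m) := by
      intro i
      have h1 : ContinuousOn (fun I => X I i) (O m) := (continuous_apply i).comp_continuousOn hXc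
      exact h1.inv₀ fun I hI => ((hX I hI).2.1 i).ne'
    have hjen : ∀ i, Real.exp (-(W I i)) ≤ ∫ h, (X (I + h) i)⁻¹ ∂P := by
      intro i
      have hw1 : Integrable (fun h => -(w (I + h) i)) P := (hcomp _ (hwc i) I hI').neg
      have hw2 : ∀ᵐ h ∂P, Real.exp (-(w (I + h) i)) = (X (I + h) i)⁻¹ := by
        filter_upwards [hPS] with h hh
        rw [Real.exp_neg]
        change (Real.exp (Real.log (X (I + h) i)))⁻¹ = _
        rw [Real.exp_log ((hX (I + h) (hIS I hI' h hh)).2.1 i)]
      have h1 := convexOn_exp.map_integral_le (μ := P) (f := fun h => -(w (I + h) i))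
        Real.continuous_exp.continuousOn isClosed_univ
        (Filter.Eventually.of_forall fun _ => Set.mem_univ _) hw1 (by
          refine (hcomp _ (hXi i) I hI').congr ?_
          filter_upwards [hw2] with h hh
          exact hh.symm)
      rw [integral_neg, integral_congr_ae hw2] at h1
      exact h1
    calc ∑ i, I i * Real.exp (-(fderiv ℝ V I (Pi.single i 1))) * t i
        ≤ ∑ i, I i * (∫ h, (X (I + h) i)⁻¹ ∂P) * |t i| := by
          refine Finset.sum_le_sum fun i _ => ?_
          rw [hfd I hI' i]
          refine le_trans (mul_le_mul_of_nonneg_left (le_abs_self (t i)) ?_)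
            (mul_le_mul_of_nonneg_right (mul_le_mul_of_nonneg_left (hjen i) (hI' i).le)
              (abs_nonneg _))
          exact mul_nonneg (hI' i).le (Real.exp_pos _).le
      _ = ∫ h, ∑ i, I i * (X (I + h) i)⁻¹ * |t i| ∂P := by
          rw [integral_finsetSum _ fun i _ => ((hcomp _ (hXi i) I hI').const_mul _).mul_const _]
          refine Finset.sum_congr rfl fun i _ => ?_
          rw [integral_mul_const, integral_const_mul]
      _ ≤ ∫ _, (∑ i, I i + ε) ∂P := by
          refine integral_mono_ae ?_ (integrable_const _) ?_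
          · exact integrable_finsetSum _ fun i _ =>
              ((hcomp _ (hXi i) I hI').const_mul _).mul_const _
          · filter_upwards [hPS] with h hh
            have h4 := hX (I + h) (hIS I hI' h hh)
            have h5 := h4.2.2.2 _ habs
            calc ∑ i, I i * (X (I + h) i)⁻¹ * |t i|
                ≤ ∑ i, (I + h) i / X (I + h) i * |t i| := by
                  refine Finset.sum_le_sum fun i _ => ?_
                  rw [div_eq_mul_inv]
                  refine mul_le_mul_of_nonneg_right (mul_le_mul_of_nonneg_right ?_ ?_)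
                    (abs_nonneg _)
                  · rw [Pi.add_apply]
                    linarith [(hSδ h hh i).1]
                  · exact inv_nonneg.2 (h4.2.1 i).le
              _ ≤ ∑ i, (I + h) i := h5
              _ ≤ ∑ i, (I i + δ) := Finset.sum_le_sum fun i _ => by
                  rw [Pi.add_apply]
                  linarith [(hSδ h hh i).2]
              _ = ∑ i, I i + m * δ := by
                  rw [Finset.sum_add_distrib, Finset.sum_const, Finset.card_univ,
                    Fintype.card_fin, nsmul_eq_mul]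
              _ ≤ ∑ i, I i + ε := by
                  have h6 : (m + 1 : ℝ) * δ = ε := by
                    simp only [δ]
                    field_simp
                  linarith
      _ = ∑ i, I i + ε := by
          rw [integral_const]
          simp

end Pool.Agent.Y171.SJ
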